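import Pool.Agent.W401.SSS.Final

/-!
# There is exactly one trace-minimising arithmetic measure

Full (affirmative) answer of Q1 of MP_d35819_nt.
-/

open MeasureTheory Polynomial Pool.Agent.W401.SSS

namespace Pool.Agent.Results.MP_d35819_nt.Uniqueness

/-- There is exactly one arithmetic probability measure on `ℂ` whose support is a compact subset
of `[0,∞)` and whose mean is the Schur-Siegel-Smyth constant. -/
theorem result :
    ∃! μ : Measure ℂ, IsProbabilityMeasure μ ∧ CompactHalfLine μ ∧ ArithC μ ∧
      ∫ z : ℂ, z ∂μ = (lamSSS : ℂ) := by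
  obtain ⟨-, ⟨μ, h1, h2, h3⟩, -⟩ := facts
  have hp := h1.1
  refine ⟨μ.map (fun x : ℝ => (x : ℂ)), ⟨?_, compactHalfLine_map h1, arithC_map h2, ?_⟩, ?_⟩
  · exact Measure.isProbabilityMeasure_map Complex.measurable_ofReal.aemeasurable
  · rw [integral_map_ofReal, h3]
  · rintro ν ⟨g1, g2, g3, g4⟩
    obtain ⟨B', g5⟩ := on_map_re g1 g2
    have g6 := arith_map_re g2 g3
    have g7 : mean (ν.map Complex.re) = lamSSS := by
      have := integral_map_ofReal (ν.map Complex.re)
      rw [map_re_map g2, g4] at this
      exact_mod_cast this.symm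
    have e := unique_facts h1 h2 h3 g5 g6 g7
    rw [e, map_re_map g2]

end Pool.Agent.Results.MP_d35819_nt.Uniqueness
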